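import Mathlib

/-!
# MP_b5e4d4_co: a formula for the number of labeled self-converse digraphs

`s p` is the number of self-converse digraphs on the point set `Fin p`.  The formula is a finite sum
over the conjugacy classes of those subgroups `K` of `S_p × {1,-1}` which are generated by their
elements of `2`-power order with second coordinate `-1`; the summand is
`(size of the class) * coef K * 2 ^ (number of orbits of K on the ordered pairs)`, where an element
`(σ, -1)` maps the ordered pair `(u, v)` to `(σ v, σ u)`, and `coef K` is a sum of values of the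
Moebius function of the subgroup lattice.
-/

set_option autoImplicit false

open Finset
open scoped Pointwise

namespace Pool.Agent.Results.MP_b5e4d4_co.SubgroupFormula

section general

variable {G E : Type} [Group G]

open Classical in
noncomputable instance fintypeSubgroup [Finite G] : Fintype (Subgroup G) := Fintype.ofFinite _

open Classical in
noncomputable instance locFinSubgroup [Finite G] : LocallyFiniteOrder (Subgroup G) :=
  Fintype.toLocallyFiniteOrder

open Classical in
/-- the coefficient of `K`: the sum of the Moebius function `μ(H, K)` of the subgroup lattice over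
all subgroups `H ≤ K` which are not contained in `N` -/
noncomputable def coef [Finite G] (N K : Subgroup G) : ℤ :=
  ∑ H : Subgroup G with H ≤ K ∧ ¬ H ≤ N, IncidenceAlgebra.mu ℤ H K

/-- the subgroup generated by the elements of `K` of `2`-power order outside `N` -/
def gen2 (N K : Subgroup G) : Subgroup G :=
  Subgroup.closure {g | g ∈ K ∧ g ∉ N ∧ ∃ k : ℕ, orderOf g = 2 ^ k}

/-- the stabiliser of a colouring -/
def stab [MulAction G E] (c : E → Prop) : Subgroup G where
  carrier := {g | ∀ e, c (g • e) ↔ c e}
  mul_mem' := by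
    intro a b ha hb e
    rw [mul_smul, ha, hb]
  one_mem' := by intro e; rw [one_smul]
  inv_mem' := by
    intro a ha e
    have := ha (a⁻¹ • e)
    rw [smul_inv_smul] at this
    exact this.symm

open Classical in
theorem sum_coef [Finite G] (N H : Subgroup G) :
    ∑ K : Subgroup G with K ≤ H, coef N K = if H ≤ N then 0 else 1 := by
  unfold coef
  have h1 : ∀ K : Subgroup G, ∑ L : Subgroup G with L ≤ K ∧ ¬ L ≤ N, IncidenceAlgebra.mu ℤ L K =
      ∑ L : Subgroup G, if ¬ L ≤ N then IncidenceAlgebra.mu ℤ L K else 0 := by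
    intro K
    rw [Finset.sum_filter]
    refine Finset.sum_congr rfl fun L _ => ?_
    by_cases hL : L ≤ K
    · simp [hL]
    · rw [IncidenceAlgebra.apply_eq_zero_of_not_le hL]; simp
  simp_rw [h1]
  rw [Finset.sum_comm]
  have h2 : ∀ L : Subgroup G, ∑ K : Subgroup G with K ≤ H,
      (if ¬ L ≤ N then IncidenceAlgebra.mu ℤ L K else 0) =
      if ¬ L ≤ N then (if L = H then 1 else 0) else 0 := by
    intro L
    by_cases hL : L ≤ N
    · simp [hL]
    · simp only [hL, not_false_eq_true, if_true]
      rw [← IncidenceAlgebra.sum_Icc_mu_right (𝕜 := ℤ) L H]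
      symm
      refine Finset.sum_subset ?_ ?_
      · intro K hK
        rw [Finset.mem_Icc] at hK
        simp [hK.2]
      · intro K hK1 hK'
        apply IncidenceAlgebra.apply_eq_zero_of_not_le
        intro h
        exact hK' (Finset.mem_Icc.mpr ⟨h, (Finset.mem_filter.mp hK1).2⟩)
  rw [Finset.sum_congr rfl fun L _ => h2 L]
  by_cases hH : H ≤ N
  · simp only [hH, if_true]
    apply Finset.sum_eq_zero
    intro L _
    by_cases h : L = H
    · subst h; simp [hH]
    · simp [h]
  · simp only [hH, if_false]
    rw [Finset.sum_eq_single H]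
    · simp [hH]
    · intro L _ hL; simp [hL]
    · intro h; exact absurd (Finset.mem_univ _) h

theorem gen2_le (N K : Subgroup G) : gen2 N K ≤ K := by
  unfold gen2
  rw [Subgroup.closure_le]
  intro g hg
  exact hg.1

theorem gen2_mono (N : Subgroup G) {K L : Subgroup G} (h : K ≤ L) : gen2 N K ≤ gen2 N L := by
  unfold gen2
  exact Subgroup.closure_mono fun g hg => ⟨h hg.1, hg.2⟩

theorem gen2_le_iff [Finite G] (N : Subgroup G) (hN : N.index = 2) (K : Subgroup G) :
    gen2 N K ≤ N ↔ K ≤ N := by
  constructor
  · intro h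
    by_contra hK
    obtain ⟨g, hgK, hgN⟩ := SetLike.not_le_iff_exists.mp hK
    have ho : orderOf g ≠ 0 := (orderOf_pos g).ne'
    obtain ⟨a, m, hm, hom⟩ := Nat.exists_eq_two_pow_mul_odd ho
    have hgm : g ^ m ∉ N := by
      obtain ⟨t, rfl⟩ := hm
      intro hmem
      apply hgN
      rw [pow_succ] at hmem
      have h2 : g ^ (2 * t) ∈ N := by
        rw [pow_mul]
        exact N.pow_mem (Subgroup.sq_mem_of_index_two hN g) t
      exact (N.mul_mem_cancel_left h2).mp hmem
    apply hgm
    apply h
    apply Subgroup.subset_closure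
    refine ⟨K.pow_mem hgK m, hgm, a, ?_⟩
    rw [orderOf_pow_of_dvd hm.pos.ne' (by rw [hom]; exact dvd_mul_left _ _), hom]
    exact Nat.mul_div_cancel _ hm.pos
  · intro h
    exact (gen2_le N K).trans h

open Classical in
theorem coef_eq_zero [Finite G] (N : Subgroup G) (hN : N.index = 2) (K : Subgroup G)
    (hK : gen2 N K ≠ K) : coef N K = 0 := by
  induction K using WellFoundedLT.induction with
  | _ K ih =>
    have hlt : gen2 N K < K := lt_of_le_of_ne (gen2_le N K) hK
    have h1 := sum_coef N K
    have h2 := sum_coef N (gen2 N K)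
    rw [if_congr (gen2_le_iff N hN K) rfl rfl, ← h1] at h2
    have h3 : ∑ L : Subgroup G with L ≤ K, coef N L =
        coef N K + ∑ L : Subgroup G with L ≤ gen2 N K, coef N L := by
      have h4 : (Finset.univ.filter fun L : Subgroup G => L ≤ K) =
          insert K (Finset.univ.filter fun L : Subgroup G => L < K) := by
        ext L
        simp only [Finset.mem_filter, Finset.mem_univ, true_and, Finset.mem_insert]
        exact le_iff_eq_or_lt
      rw [h4, Finset.sum_insert (by simp)]
      congr 1
      symm
      refine Finset.sum_subset ?_ ?_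
      · intro L hL
        simp only [Finset.mem_filter, Finset.mem_univ, true_and] at hL ⊢
        exact lt_of_le_of_lt hL hlt
      · intro L hL hL'
        simp only [Finset.mem_filter, Finset.mem_univ, true_and] at hL hL'
        apply ih L hL
        intro h
        apply hL'
        rw [← h]
        exact gen2_mono N hL.le
    rw [h3] at h2
    linarith

theorem card_fixed [MulAction G E] [Finite E] (K : Subgroup G) :
    Nat.card {c : E → Prop // K ≤ stab c} =
      2 ^ Nat.card (MulAction.orbitRel.Quotient K E) := by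
  classical
  have e : {c : E → Prop // K ≤ stab c} ≃ (MulAction.orbitRel.Quotient K E → Prop) :=
    { toFun := fun c => Quotient.lift c.1 (by
        intro a b hab
        obtain ⟨g, rfl⟩ := hab
        exact propext (c.2 g.2 b))
      invFun := fun f => ⟨fun e => f (Quotient.mk _ e), by
        intro g hg e
        have : (Quotient.mk (MulAction.orbitRel K E) (g • e)) =
            Quotient.mk (MulAction.orbitRel K E) e := Quotient.sound ⟨⟨g, hg⟩, rfl⟩
        change f _ ↔ f _
        rw [this]⟩
      left_inv := by
        intro c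
        rfl
      right_inv := by
        intro f
        funext q
        induction q using Quotient.ind
        rfl }
  have : Finite (MulAction.orbitRel.Quotient K E) := Quotient.finite _
  rw [Nat.card_congr e, Nat.card_fun]
  simp

open Classical in
/-- general form -/
theorem main [Finite G] [MulAction G E] [Finite E] (N : Subgroup G) :
    (Nat.card {c : E → Prop // ∃ g : G, g ∉ N ∧ g ∈ stab c} : ℤ) =
      ∑ K : Subgroup G, coef N K * 2 ^ Nat.card (MulAction.orbitRel.Quotient K E) := by
  have := Fintype.ofFinite E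
  have h1 : (Nat.card {c : E → Prop // ∃ g : G, g ∉ N ∧ g ∈ stab c} : ℤ) =
      ∑ c : E → Prop, if stab (G := G) c ≤ N then 0 else 1 := by
    rw [Nat.card_eq_fintype_card, Fintype.card_subtype, Finset.card_filter]
    push_cast
    refine Finset.sum_congr rfl fun c _ => ?_
    have : (∃ g : G, g ∉ N ∧ g ∈ stab c) ↔ ¬ stab (G := G) c ≤ N := by
      rw [SetLike.not_le_iff_exists]
      exact ⟨fun ⟨g, h1, h2⟩ => ⟨g, h2, h1⟩, fun ⟨g, h1, h2⟩ => ⟨g, h2, h1⟩⟩
    rw [if_congr this rfl rfl]
    by_cases h : stab (G := G) c ≤ N <;> simp [h]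
  rw [h1]
  simp_rw [← sum_coef N, Finset.sum_filter]
  rw [Finset.sum_comm]
  refine Finset.sum_congr rfl fun K _ => ?_
  rw [← Finset.sum_filter, Finset.sum_const, ← Fintype.card_subtype, ← Nat.card_eq_fintype_card,
    card_fixed, nsmul_eq_mul, mul_comm]
  push_cast
  rfl

open Classical in
theorem coef_conj [Finite G] (N : Subgroup G) [N.Normal] (g : ConjAct G) (K : Subgroup G) :
    coef N (g • K) = coef N K := by
  have hN : ∀ (h : ConjAct G) (L : Subgroup G), h • L ≤ N ↔ L ≤ N := by
    intro h L
    have h1 : h • N = N := Subgroup.Normal.conjAct inferInstance h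
    constructor
    · intro h2
      have h3 : h • L ≤ h • N := by rw [h1]; exact h2
      exact (Subgroup.pointwise_smul_le_pointwise_smul_iff).mp h3
    · intro h2
      have h3 : h • L ≤ h • N := (Subgroup.pointwise_smul_le_pointwise_smul_iff).mpr h2
      rwa [h1] at h3
  induction K using WellFoundedLT.induction with
  | _ K ih =>
    have hstep : ∀ M : Subgroup G, coef N M = (if M ≤ N then 0 else 1) -
        ∑ L : Subgroup G with L < M, coef N L := by
      intro M
      rw [← sum_coef N M]
      have h4 : (Finset.univ.filter fun L : Subgroup G => L ≤ M) =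
          insert M (Finset.univ.filter fun L : Subgroup G => L < M) := by
        ext L
        simp only [Finset.mem_filter, Finset.mem_univ, true_and, Finset.mem_insert]
        exact le_iff_eq_or_lt
      rw [h4, Finset.sum_insert (by simp)]
      ring
    rw [hstep (g • K), hstep K, if_congr (hN g K) rfl rfl]
    congr 1
    symm
    refine Finset.sum_bij' (fun L _ => g • L) (fun L _ => g⁻¹ • L) ?_ ?_ ?_ ?_ ?_
    · intro L hL
      simp only [Finset.mem_filter, Finset.mem_univ, true_and] at hL ⊢
      refine lt_of_le_of_ne (Subgroup.pointwise_smul_le_pointwise_smul_iff.mpr hL.le) ?_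
      intro h
      exact hL.ne (smul_left_cancel g h)
    · intro L hL
      simp only [Finset.mem_filter, Finset.mem_univ, true_and] at hL ⊢
      have h1 : g⁻¹ • L ≤ g⁻¹ • (g • K) := Subgroup.pointwise_smul_le_pointwise_smul_iff.mpr hL.le
      rw [inv_smul_smul] at h1
      refine lt_of_le_of_ne h1 ?_
      intro h
      apply hL.ne
      rw [← h, smul_inv_smul]
    · intro L _; exact inv_smul_smul g L
    · intro L _; exact smul_inv_smul g L
    · intro L hL
      simp only [Finset.mem_filter, Finset.mem_univ, true_and] at hL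
      exact (ih L hL).symm

theorem orb_conj [MulAction G E] (g : ConjAct G) (K : Subgroup G) :
    Nat.card (MulAction.orbitRel.Quotient (g • K : Subgroup G) E) =
      Nat.card (MulAction.orbitRel.Quotient K E) := by
  refine (Nat.card_congr (Quotient.congr (MulAction.toPerm (ConjAct.ofConjAct g)) ?_)).symm
  intro a b
  rw [MulAction.orbitRel_apply, MulAction.orbitRel_apply, MulAction.mem_orbit_iff,
    MulAction.mem_orbit_iff]
  simp only [MulAction.toPerm_apply]
  constructor
  · rintro ⟨⟨k, hk⟩, rfl⟩
    refine ⟨⟨g • k, Subgroup.smul_mem_pointwise_smul k g K hk⟩, ?_⟩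
    change (g • k) • ConjAct.ofConjAct g • b = ConjAct.ofConjAct g • k • b
    rw [ConjAct.smul_def, ← mul_smul, ← mul_smul]
    simp
  · rintro ⟨⟨k, hk⟩, h⟩
    rw [Subgroup.mem_pointwise_smul_iff_inv_smul_mem] at hk
    refine ⟨⟨g⁻¹ • k, hk⟩, ?_⟩
    change (g⁻¹ • k) • b = a
    change k • ConjAct.ofConjAct g • b = ConjAct.ofConjAct g • a at h
    rw [ConjAct.smul_def, mul_smul, mul_smul]
    simp only [ConjAct.ofConjAct_inv, inv_inv]
    rw [h, inv_smul_smul]

/-- conjugacy classes of subgroups of `G` -/
abbrev ConjSub (G : Type) [Group G] : Type := MulAction.orbitRel.Quotient (ConjAct G) (Subgroup G)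

open Classical in
noncomputable instance [Finite G] : Fintype (ConjSub G) := Fintype.ofFinite _

/-- the number of subgroups in the class -/
noncomputable def classSize (ω : ConjSub G) : ℕ := Nat.card {K : Subgroup G // (Quotient.mk _ K : ConjSub G) = ω}

open Classical in
theorem sum_classes [Finite G] (f : Subgroup G → ℤ) (hf : ∀ (g : ConjAct G) K, f (g • K) = f K) :
    ∑ K : Subgroup G, f K = ∑ ω : ConjSub G, (classSize ω : ℤ) * f ω.out := by
  rw [← Finset.sum_fiberwise Finset.univ (fun K : Subgroup G => (Quotient.mk _ K : ConjSub G))]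
  refine Finset.sum_congr rfl fun ω _ => ?_
  have h1 : ∀ K ∈ Finset.univ.filter (fun K : Subgroup G => (Quotient.mk _ K : ConjSub G) = ω),
      f K = f ω.out := by
    intro K hK
    have h2 : (Quotient.mk _ K : ConjSub G) = ω := (Finset.mem_filter.mp hK).2
    rw [← Quotient.out_eq ω] at h2
    obtain ⟨g, hg⟩ := Quotient.exact h2
    change g • ω.out = K at hg
    rw [← hg, hf]
  rw [Finset.sum_congr rfl h1, Finset.sum_const, nsmul_eq_mul]
  congr 2
  unfold classSize
  rw [Nat.card_eq_fintype_card, Fintype.card_subtype]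

end general

section digraphs

/-- labeled digraphs of order `p`: irreflexive arc relations on the point set `Fin p` -/
def LDigraph (p : ℕ) : Type := {R : Fin p → Fin p → Prop // ∀ i, ¬ R i i}

/-- the converse of a digraph -/
def LDigraph.converse {p : ℕ} (D : LDigraph p) : LDigraph p := ⟨fun u v => D.1 v u, fun i => D.2 i⟩

/-- `D` is isomorphic to its converse -/
def SelfConverse {p : ℕ} (D : LDigraph p) : Prop :=
  ∃ σ : Equiv.Perm (Fin p), ∀ u v, D.1 u v ↔ D.converse.1 (σ u) (σ v)

/-- the number of labeled self-converse digraphs of order `p` -/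
noncomputable def s (p : ℕ) : ℕ := Nat.card {D : LDigraph p // SelfConverse D}

/-- ordered pairs of distinct points -/
abbrev Arc (p : ℕ) : Type := {e : Fin p × Fin p // e.1 ≠ e.2}

/-- the group `S_p × {1,-1}` -/
abbrev Gam (p : ℕ) : Type := Equiv.Perm (Fin p) × ℤˣ

/-- `(σ, 1)` maps the ordered pair `(u, v)` to `(σ u, σ v)`, and `(σ, -1)` maps it to
`(σ v, σ u)` -/
instance arcAction (p : ℕ) : MulAction (Gam p) (Arc p) where
  smul g e := if g.2 = 1 then ⟨(g.1 e.1.1, g.1 e.1.2), fun h => e.2 (g.1.injective h)⟩
    else ⟨(g.1 e.1.2, g.1 e.1.1), fun h => e.2 (g.1.injective h).symm⟩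
  one_smul := by
    rintro ⟨e, he⟩
    rfl
  mul_smul := by
    rintro ⟨σ, ε⟩ ⟨τ, δ⟩ ⟨e, he⟩
    rcases Int.units_eq_one_or ε with rfl | rfl <;> rcases Int.units_eq_one_or δ with rfl | rfl <;>
      rfl

/-- the subgroup `S_p × {1}` -/
def Npos (p : ℕ) : Subgroup (Gam p) := (MonoidHom.snd (Equiv.Perm (Fin p)) ℤˣ).ker

theorem mem_Npos {p : ℕ} (g : Gam p) : g ∈ Npos p ↔ g.2 = 1 := by
  unfold Npos
  rw [MonoidHom.mem_ker]
  rfl

instance (p : ℕ) : (Npos p).Normal := by
  unfold Npos; infer_instance

theorem index_Npos (p : ℕ) : (Npos p).index = 2 := by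
  unfold Npos
  rw [Subgroup.index_ker, MonoidHom.range_eq_top.mpr]
  · rw [Subgroup.card_top]; simp
  · intro x; exact ⟨(1, x), rfl⟩

/-- a digraph as a colouring of the ordered pairs -/
def eD (p : ℕ) : LDigraph p ≃ (Arc p → Prop) where
  toFun := fun D e => D.1 e.1.1 e.1.2
  invFun := fun c => ⟨fun i j => ∃ h : i ≠ j, c ⟨(i, j), h⟩, fun i h => h.1 rfl⟩
  left_inv := by
    intro D
    apply Subtype.ext
    funext i j
    apply propext
    constructor
    · rintro ⟨h, hc⟩
      exact hc
    · intro h
      exact ⟨fun hij => D.2 i (by rw [← hij] at h; exact h), h⟩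
  right_inv := by
    intro c
    funext e
    obtain ⟨⟨a, b⟩, he⟩ := e
    apply propext
    constructor
    · rintro ⟨h, hc⟩; exact hc
    · intro h; exact ⟨he, h⟩

theorem s_card (p : ℕ) :
    s p = Nat.card {c : Arc p → Prop // ∃ g : Gam p, g ∉ Npos p ∧ g ∈ stab c} := by
  unfold s
  refine Nat.card_congr (Equiv.subtypeEquiv (eD p) ?_)
  intro D
  constructor
  · rintro ⟨σ, hσ⟩
    refine ⟨(σ, -1), ?_, ?_⟩
    · rw [mem_Npos]
      change ¬ ((-1 : ℤˣ) = 1)
      decide
    · rintro ⟨⟨u, v⟩, huv⟩
      change D.1 (σ v) (σ u) ↔ D.1 u v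
      exact (hσ u v).symm
  · rintro ⟨⟨σ, ε⟩, h1, h2⟩
    rw [mem_Npos] at h1
    have hε : ε = -1 := (Int.units_eq_one_or ε).resolve_left h1
    subst hε
    refine ⟨σ, ?_⟩
    intro u v
    by_cases huv : u = v
    · subst huv
      exact ⟨fun h => absurd h (D.2 _), fun h => absurd h (D.2 _)⟩
    · exact (h2 (⟨(u, v), huv⟩ : Arc p)).symm

/-- the number of orbits of the subgroup `K` of `S_p × {1,-1}` on the ordered pairs -/
noncomputable def orb {p : ℕ} (K : Subgroup (Gam p)) : ℕ :=
  Nat.card (MulAction.orbitRel.Quotient K (Arc p))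

open Classical in
/-- **Formula for the number of labeled self-converse digraphs.** -/
theorem result (p : ℕ) :
    (s p : ℤ) = ∑ ω : ConjSub (Gam p), if gen2 (Npos p) ω.out = ω.out then
      (classSize ω : ℤ) * coef (Npos p) ω.out * 2 ^ orb ω.out else 0 := by
  rw [s_card, main (Npos p), sum_classes]
  · refine Finset.sum_congr rfl fun ω _ => ?_
    by_cases h : gen2 (Npos p) ω.out = ω.out
    · rw [if_pos h, mul_assoc]; rfl
    · rw [if_neg h, coef_eq_zero _ (index_Npos p) _ h]; ring
  · intro g K
    rw [coef_conj, orb_conj]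

end digraphs

end Pool.Agent.Results.MP_b5e4d4_co.SubgroupFormula
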